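import Mathlib
import Pool.Agent.Y33.GP.Sys

set_option autoImplicit false

/-!
# Heads, special subgroups and rigid sequences in graph products
-/

namespace Pool.Agent.Q103.EL

open Pool.Agent.Y33.GP

variable {V : Type} {Γ : SimpleGraph V} {H : V → Type} [∀ v, Group (H v)]

/-- The subgroup generated by the vertex groups of `Λ`. -/
noncomputable def sub (Γ : SimpleGraph V) (H : V → Type) [∀ v, Group (H v)] (Λ : Set V) :
    Subgroup (GProd Γ H) :=
  Subgroup.closure (⋃ v ∈ Λ, Set.range (inj Γ H v))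

theorem inj_mem_sub {Λ : Set V} {v : V} (hv : v ∈ Λ) (a : H v) : inj Γ H v a ∈ sub Γ H Λ :=
  Subgroup.subset_closure (Set.mem_biUnion hv ⟨a, rfl⟩)

theorem sub_mono {Λ Λ' : Set V} (h : Λ ⊆ Λ') : sub Γ H Λ ≤ sub Γ H Λ' :=
  Subgroup.closure_mono (Set.biUnion_mono h fun _ _ => subset_rfl)

theorem ind_right {P : GProd Γ H → Prop} (x : GProd Γ H) (h1 : P 1)
    (h2 : ∀ v (a : H v) x, P x → P (x * inj Γ H v a)) : P x := by
  have := ind_left Γ H (P := fun x => P x⁻¹) x⁻¹ (by rw [inv_one]; exact h1) (by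
    intro v a x hx
    rw [mul_inv_rev, ← map_inv]
    exact h2 v a⁻¹ _ hx)
  rwa [inv_inv] at this

theorem kap_mem_sub (Λ : Set V) (x : GProd Γ H) : kap Γ H Λ x ∈ sub Γ H Λ := by
  refine ind_left Γ H (P := fun x => kap Γ H Λ x ∈ sub Γ H Λ) x ?_ ?_
  · rw [map_one]; exact Subgroup.one_mem _
  · intro v a x hx
    rw [map_mul]
    refine Subgroup.mul_mem _ ?_ hx
    by_cases h : v ∈ Λ
    · rw [kap_mem Γ H h]; exact inj_mem_sub h a
    · rw [kap_not Γ H h]; exact Subgroup.one_mem _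

/-- Multiplication by an element of a special subgroup does not change the other heads. -/
theorem headv_sub {Λ : Set V} {v : V} (hv : v ∉ Λ) {s : GProd Γ H} (hs : s ∈ sub Γ H Λ) :
    ∀ x, headv Γ H v (x * s) = headv Γ H v x := by
  unfold sub at hs
  induction hs using Subgroup.closure_induction with
  | mem y hy =>
    intro x
    obtain ⟨w, hw, a, rfl⟩ := Set.mem_iUnion₂.1 hy
    exact headv_ne Γ H v (fun h => hv (h ▸ hw)) x a
  | one => intro x; rw [mul_one]
  | mul y z _ _ ihy ihz => intro x; rw [← mul_assoc, ihz, ihy]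
  | inv y _ ih => intro x; rw [← ih (x * y⁻¹), inv_mul_cancel_right]

/-- Two nonadjacent vertices do not both have a nontrivial head. -/
theorem excl (y : GProd Γ H) : ∀ u v, Γᶜ.Adj u v → headv Γ H u y = 1 ∨ headv Γ H v y = 1 := by
  refine ind_right (P := fun y => ∀ u v, Γᶜ.Adj u v → headv Γ H u y = 1 ∨ headv Γ H v y = 1) y ?_ ?_
  · intro u v _
    exact Or.inl (headv_one Γ H u)
  · intro w b y ih
    have key : ∀ u, Γᶜ.Adj u w → headv Γ H u (y * inj Γ H w b) = 1 ∨
        headv Γ H w (y * inj Γ H w b) = 1 := by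
      intro u huv
      have hne : w ≠ u := huv.ne.symm
      by_cases h : kap Γ H (st Γ w) y = y
      · left
        have h1 : u ∉ st Γ w := by
          rintro (h' | h')
          · exact hne h'.symm
          · exact (SimpleGraph.compl_adj Γ u w).mp huv |>.2 h'.symm
        have h2 := headv_sub (Γ := Γ) (H := H) h1 (kap_mem_sub (st Γ w) y) 1
        rw [one_mul, h, headv_one] at h2
        rw [headv_ne Γ H u hne, h2]
      · rw [headv_not Γ H w h b, headv_ne Γ H u hne]
        exact ih u w huv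
    intro u v huv
    by_cases h1 : w = v
    · subst h1
      exact key u huv
    · by_cases h2 : w = u
      · subst h2
        exact (key v huv.symm).symm
      · rw [headv_ne Γ H v h1, headv_ne Γ H u h2]
        exact ih u v huv

theorem excl' {u v : V} (h : Γᶜ.Adj u v) {y : GProd Γ H} (hy : headv Γ H u y ≠ 1) :
    headv Γ H v y = 1 := (excl y u v h).resolve_left hy

/-! ### Rigid sequences -/

/-- A sequence of vertices, consecutive ones different and not adjacent, with a nontrivial element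
of every vertex group. -/
structure Rigid (Γ : SimpleGraph V) (H : V → Type) [∀ v, Group (H v)] where
  /-- the vertices -/
  v : ℕ → V
  /-- the elements -/
  τ : ∀ w, H w
  adj : ∀ i, Γᶜ.Adj (v i) (v (i + 1))
  ne : ∀ w, τ w ≠ 1

namespace Rigid

variable (S : Rigid Γ H)

/-- The products of the first elements. -/
noncomputable def R : ℕ → GProd Γ H
  | 0 => 1
  | n + 1 => R n * inj Γ H (S.v n) (S.τ (S.v n))

/-- The position of `z` with respect to the wall number `q` of the ray `t R`. -/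
noncomputable def β (t : GProd Γ H) (q : ℕ) (z : GProd Γ H) : H (S.v q) :=
  headv Γ H (S.v q) ((t * S.R q)⁻¹ * z)

theorem β_eq (t : GProd Γ H) (q : ℕ) (z : GProd Γ H) :
    S.β t q z = S.τ (S.v q) * headv Γ H (S.v q) ((t * S.R (q + 1))⁻¹ * z) := by
  unfold β
  rw [← headv_same]
  congr 1
  have : S.R (q + 1) = S.R q * inj Γ H (S.v q) (S.τ (S.v q)) := rfl
  rw [this]
  group

theorem β_succ {t : GProd Γ H} {q : ℕ} {z : GProd Γ H} (h : S.β t q z = 1) :
    S.β t (q + 1) z = 1 := by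
  by_contra hne
  have h1 := excl' (S.adj q).symm hne
  rw [S.β_eq, h1, mul_one] at h
  exact S.ne _ h

theorem β_mono {t : GProd Γ H} {q : ℕ} {z : GProd Γ H} (h : S.β t q z = 1) (m : ℕ) :
    S.β t (q + m) z = 1 := by
  induction m with
  | zero => exact h
  | succ m ih => exact S.β_succ ih

theorem β_mono' {t : GProd Γ H} {q q' : ℕ} {z : GProd Γ H} (h : S.β t q z = 1) (hq : q ≤ q') :
    S.β t q' z = 1 := by
  obtain ⟨m, rfl⟩ := Nat.exists_eq_add_of_le hq
  exact S.β_mono h m

theorem β_end (t : GProd Γ H) (j : ℕ) : S.β t j (t * S.R (j + 1)) ≠ 1 := by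
  rw [S.β_eq, inv_mul_cancel, headv_one, mul_one]
  exact S.ne _

theorem β_start (t : GProd Γ H) (i : ℕ) : S.β t i (t * S.R i) = 1 := by
  unfold β
  rw [inv_mul_cancel, headv_one]

/-- Every window of length `k` contains a vertex which is not in `Λ`. -/
def Win (k : ℕ) (Λ : Set V) : Prop := ∀ q, ∃ q', q ≤ q' ∧ q' < q + k ∧ S.v q' ∉ Λ

theorem β_step {k : ℕ} {Λ : Set V} (hΛ : S.Win k Λ) {t : GProd Γ H} {q : ℕ} {z s : GProd Γ H}
    (hs : s ∈ sub Γ H Λ) (h : S.β t q z = 1) : S.β t (q + k) (z * s) = 1 := by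
  obtain ⟨q', h1, h2, h3⟩ := hΛ q
  have h4 := S.β_mono' h h1
  have h5 : S.β t q' (z * s) = 1 := by
    unfold β at h4 ⊢
    rw [← mul_assoc, headv_sub h3 hs, h4]
  exact S.β_mono' h5 h2.le

/-- Elements which separate the ray `R` and its translate. -/
def Sep (D : GProd Γ H) : Prop :=
  ∀ x, (∀ w, Γᶜ.Adj (S.v 0) w → headv Γ H w x = 1) → headv Γ H (S.v 0) (D * x) = 1

theorem R_heads (i : ℕ) (w : V) (hw : Γᶜ.Adj (S.v 0) w) : headv Γ H w (S.R i) = 1 := by
  cases i with
  | zero => exact headv_one Γ H w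
  | succ i =>
    refine excl' hw ?_
    have h1 : S.β 1 0 (S.R (i + 1)) ≠ 1 := by
      intro h
      have h2 := S.β_mono h i
      rw [zero_add] at h2
      have h3 := S.β_end 1 i
      rw [one_mul] at h3
      exact h3 h2
    unfold β at h1
    have h4 : S.R 0 = 1 := rfl
    rw [h4, mul_one, inv_one, one_mul] at h1
    exact h1

theorem β_sep {t t' : GProd Γ H} (h : S.Sep (t⁻¹ * t')) (i : ℕ) : S.β t 1 (t' * S.R i) = 1 := by
  have h1 := h (S.R i) (S.R_heads i)
  unfold β
  have e : (t * S.R 1)⁻¹ * (t' * S.R i) =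
      inj Γ H (S.v 0) (S.τ (S.v 0))⁻¹ * (t⁻¹ * t' * S.R i) := by
    have : S.R 1 = 1 * inj Γ H (S.v 0) (S.τ (S.v 0)) := rfl
    rw [this, one_mul, map_inv]
    group
  rw [e]
  refine excl' (S.adj 0) ?_
  rw [headv_same, h1, mul_one]
  exact inv_ne_one.mpr (S.ne _)

theorem sep_one {w : V} (hw : Γᶜ.Adj (S.v 0) w) {a : H w} (ha : a ≠ 1) :
    S.Sep (inj Γ H w a) := by
  intro x hx
  refine excl' hw.symm ?_
  rw [headv_same, hx w hw, mul_one]
  exact ha

theorem sep_two {w w' : V} (hw : Γᶜ.Adj (S.v 0) w) (hw' : Γᶜ.Adj (S.v 0) w') (hne : w ≠ w')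
    {a : H w} (ha : a ≠ 1) {a' : H w'} (ha' : a' ≠ 1) :
    S.Sep (inj Γ H w a * inj Γ H w' a') := by
  intro x hx
  refine excl' hw.symm ?_
  rw [mul_assoc, headv_same]
  have h1 : headv Γ H w (inj Γ H w' a' * x) = 1 := by
    by_cases h : Γ.Adj w w'
    · rw [headv_adj Γ H w h, hx w hw]
    · refine excl' (u := w') ((SimpleGraph.compl_adj Γ w' w).mpr ⟨hne.symm, fun h' => h h'.symm⟩) ?_
      rw [headv_same, hx w' hw', mul_one]
      exact ha'
  rw [h1, mul_one]
  exact ha

end Rigid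

end Pool.Agent.Q103.EL
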