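import Mathlib
import Pool.Agent.Q103.EL.Heads

set_option autoImplicit false

/-!
# The electrification of a graph product
-/

namespace Pool.Agent.Q103.EL

open Pool.Agent.Y33.GP

variable {V : Type}

/-- `a`, `b`, `c`, `d` are the consecutive vertices of an induced square. -/
def IsSquare (Γ : SimpleGraph V) (a b c d : V) : Prop :=
  Γ.Adj a b ∧ Γ.Adj b c ∧ Γ.Adj c d ∧ Γ.Adj d a ∧ a ≠ c ∧ ¬ Γ.Adj a c ∧ b ≠ d ∧ ¬ Γ.Adj b d

/-- Every induced square with two opposite vertices in `Λ` has all its vertices in `Λ`. -/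
def SquareComplete (Γ : SimpleGraph V) (Λ : Set V) : Prop :=
  ∀ a b c d, IsSquare Γ a b c d → a ∈ Λ → c ∈ Λ → b ∈ Λ ∧ d ∈ Λ

/-- `Λ` contains an induced square. -/
def HasSquare (Γ : SimpleGraph V) (Λ : Set V) : Prop :=
  ∃ a b c d, IsSquare Γ a b c d ∧ a ∈ Λ ∧ b ∈ Λ ∧ c ∈ Λ ∧ d ∈ Λ

/-- The minsquare subgraphs: the minimal square-complete subgraphs which contain an induced
square. -/
def MinSquare (Γ : SimpleGraph V) (Λ : Set V) : Prop :=
  SquareComplete Γ Λ ∧ HasSquare Γ Λ ∧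
    ∀ Λ' ⊆ Λ, SquareComplete Γ Λ' → HasSquare Γ Λ' → Λ' = Λ

/-- The generating set of the electrification: the vertex groups and the subgroups generated by the
vertex groups of the minsquare subgraphs. -/
def gens (Γ : SimpleGraph V) (H : V → Type) [∀ v, Group (H v)] : Set (GProd Γ H) :=
  {x | (∃ (v : V) (a : H v), x = inj Γ H v a) ∨ ∃ Λ : Set V, MinSquare Γ Λ ∧ x ∈ sub Γ H Λ}

theorem gens_inv {Γ : SimpleGraph V} {H : V → Type} [∀ v, Group (H v)] {x : GProd Γ H}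
    (h : x ∈ gens Γ H) : x⁻¹ ∈ gens Γ H := by
  rcases h with ⟨v, a, rfl⟩ | ⟨Λ, h1, h2⟩
  · exact Or.inl ⟨v, a⁻¹, (map_inv _ _).symm⟩
  · exact Or.inr ⟨Λ, h1, Subgroup.inv_mem _ h2⟩

/-- The electrification: the Cayley graph for the generating set `gens`. -/
def elec (Γ : SimpleGraph V) (H : V → Type) [∀ v, Group (H v)] : SimpleGraph (GProd Γ H) where
  Adj x y := x ≠ y ∧ x⁻¹ * y ∈ gens Γ H
  symm := ⟨fun x y h => ⟨h.1.symm, by
    have := gens_inv h.2
    rwa [mul_inv_rev, inv_inv] at this⟩⟩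
  loopless := ⟨fun x h => h.1 rfl⟩

/-- A connected graph which is quasi-isometric to the real line. -/
def QuasiLine {X : Type} (E : SimpleGraph X) : Prop :=
  E.Connected ∧ ∃ (f : X → ℝ) (K C : ℝ), 1 ≤ K ∧ 0 ≤ C ∧
    (∀ x y, (E.dist x y : ℝ) / K - C ≤ |f x - f y| ∧ |f x - f y| ≤ K * E.dist x y + C) ∧
    ∀ r : ℝ, ∃ x, |f x - r| ≤ C

/-- A group with a cyclic subgroup of finite index. -/
def VirtuallyCyclic (G : Type) [Group G] : Prop := ∃ g : G, (Subgroup.zpowers g).FiniteIndex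

/-! ### Three rays in a quasi-line -/

theorem two_rays {F G : ℕ → ℝ} {L : ℝ} (hG : ∀ i, |G (i + 1) - G i| ≤ L)
    (hF' : ∀ M : ℝ, ∃ i0, ∀ j, i0 ≤ j → M < F j) (hG' : ∀ M : ℝ, ∃ i0, ∀ j, i0 ≤ j → M < G j)
    (N : ℕ) : ∃ i, N ≤ i ∧ ∃ j, |F i - G j| ≤ L := by
  classical
  obtain ⟨i0, hi0⟩ := hF' (G 0)
  refine ⟨max N i0, le_max_left _ _, ?_⟩
  have h1 := hi0 (max N i0) (le_max_right _ _)
  have hex : ∃ j, F (max N i0) ≤ G j := by
    obtain ⟨j0, hj0⟩ := hG' (F (max N i0))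
    exact ⟨j0, (hj0 j0 le_rfl).le⟩
  have h2 := Nat.find_spec hex
  have h3 : Nat.find hex ≠ 0 := by
    intro h
    rw [h] at h2
    linarith
  obtain ⟨j, hj⟩ := Nat.exists_eq_succ_of_ne_zero h3
  have h4 : ¬ F (max N i0) ≤ G j := Nat.find_min hex (by omega)
  refine ⟨j + 1, ?_⟩
  rw [hj] at h2
  have h5 := hG j
  have h6 : F (max N i0) ≤ G (j + 1) := h2
  rw [abs_le] at h5 ⊢
  push Not at h4
  constructor <;> linarith [h5.1, h5.2]

theorem three_rays {X : Type} {E : SimpleGraph X} (hq : QuasiLine E) (ρ : Fin 3 → ℕ → X) (k : ℕ)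
    (h1 : ∀ a i, E.dist (ρ a i) (ρ a (i + 1)) ≤ 1)
    (h2 : ∀ a i j, j ≤ i + E.dist (ρ a i) (ρ a j) * k)
    (h3 : ∀ a b, a ≠ b → ∀ i j, j ≤ 1 + E.dist (ρ a i) (ρ b j) * k) : False := by
  obtain ⟨-, f, K, C, hK, hC, hf, -⟩ := hq
  have hK0 : 0 < K := by linarith
  have hk : 0 < k := by
    rcases Nat.eq_zero_or_pos k with h | h
    · have := h2 0 0 1
      rw [h] at this
      omega
    · exact h
  have step : ∀ a i, |f (ρ a (i + 1)) - f (ρ a i)| ≤ K + C := by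
    intro a i
    have := (hf (ρ a i) (ρ a (i + 1))).2
    rw [abs_sub_comm] at this
    have h4 : (E.dist (ρ a i) (ρ a (i + 1)) : ℝ) ≤ 1 := by exact_mod_cast h1 a i
    have h5 : K * (E.dist (ρ a i) (ρ a (i + 1)) : ℝ) ≤ K * 1 :=
      mul_le_mul_of_nonneg_left h4 hK0.le
    linarith
  have grow : ∀ a (M : ℝ), ∃ i0 : ℕ, ∀ j, i0 ≤ j → M < |f (ρ a j)| := by
    intro a M
    obtain ⟨i0, hi0⟩ := exists_nat_gt ((M + |f (ρ a 0)| + C) * K * k)
    refine ⟨i0, fun j hj => ?_⟩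
    have h4 := (hf (ρ a 0) (ρ a j)).1
    have h5 : (j : ℝ) ≤ E.dist (ρ a 0) (ρ a j) * k := by
      have := h2 a 0 j
      rw [zero_add] at this
      exact_mod_cast this
    have h6 : (i0 : ℝ) ≤ j := by exact_mod_cast hj
    have h7 : |f (ρ a 0) - f (ρ a j)| ≤ |f (ρ a 0)| + |f (ρ a j)| := abs_sub _ _
    have hk' : (0 : ℝ) < k := by exact_mod_cast hk
    have h8 : (M + |f (ρ a 0)| + C) * K < E.dist (ρ a 0) (ρ a j) := by
      by_contra hc
      push Not at hc
      have := mul_le_mul_of_nonneg_right hc hk'.le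
      linarith
    have h9 : M + |f (ρ a 0)| + C < E.dist (ρ a 0) (ρ a j) / K := by
      rw [lt_div_iff₀ hK0]
      exact h8
    linarith
  -- signs
  have sign : ∀ a, (∀ M : ℝ, ∃ i0 : ℕ, ∀ j, i0 ≤ j → M < f (ρ a j)) ∨
      (∀ M : ℝ, ∃ i0 : ℕ, ∀ j, i0 ≤ j → M < - f (ρ a j)) := by
    intro a
    obtain ⟨i0, hi0⟩ := grow a (K + C)
    rcases lt_or_ge 0 (f (ρ a i0)) with h | h
    · left
      have hpos : ∀ j, i0 ≤ j → 0 < f (ρ a j) := by
        intro j hj
        induction j, hj using Nat.le_induction with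
        | base => exact h
        | succ j hj ih =>
          have h4 := hi0 j hj
          rw [abs_of_pos ih] at h4
          have h5 := step a j
          rw [abs_le] at h5
          linarith [h5.1]
      intro M
      obtain ⟨i1, hi1⟩ := grow a M
      refine ⟨max i0 i1, fun j hj => ?_⟩
      have h4 := hi1 j (le_trans (le_max_right _ _) hj)
      rwa [abs_of_pos (hpos j (le_trans (le_max_left _ _) hj))] at h4
    · right
      have hneg : ∀ j, i0 ≤ j → f (ρ a j) ≤ 0 := by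
        intro j hj
        induction j, hj using Nat.le_induction with
        | base => exact h
        | succ j hj ih =>
          have h4 := hi0 j hj
          rw [abs_of_nonpos ih] at h4
          have h5 := step a j
          rw [abs_le] at h5
          linarith [h5.2]
      intro M
      obtain ⟨i1, hi1⟩ := grow a M
      refine ⟨max i0 i1, fun j hj => ?_⟩
      have h4 := hi1 j (le_trans (le_max_right _ _) hj)
      rwa [abs_of_nonpos (hneg j (le_trans (le_max_left _ _) hj))] at h4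
  have key : ∀ a b, a ≠ b → ∀ s : ℝ, |s| = 1 →
      (∀ M : ℝ, ∃ i0 : ℕ, ∀ j, i0 ≤ j → M < s * f (ρ a j)) →
      (∀ M : ℝ, ∃ i0 : ℕ, ∀ j, i0 ≤ j → M < s * f (ρ b j)) → False := by
    intro a b hab s hs ha hb
    obtain ⟨N, hN⟩ := exists_nat_gt (1 + K * (K + C + C) * k)
    have hstep : ∀ i, |s * f (ρ b (i + 1)) - s * f (ρ b i)| ≤ K + C := by
      intro i
      rw [← mul_sub, abs_mul, hs, one_mul]
      exact step b i
    obtain ⟨i, hi, j, hij⟩ := two_rays (F := fun i => s * f (ρ a i)) (G := fun i => s * f (ρ b i))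
      (L := K + C) hstep ha hb N

    rw [← mul_sub, abs_mul, hs, one_mul, abs_sub_comm] at hij
    have h4 := (hf (ρ b j) (ρ a i)).1
    have h5 : (E.dist (ρ b j) (ρ a i) : ℝ) / K ≤ K + C + C := by linarith
    rw [div_le_iff₀ hK0] at h5
    have h6 : (i : ℝ) ≤ 1 + E.dist (ρ b j) (ρ a i) * k := by exact_mod_cast h3 b a hab.symm j i
    have h7 : (N : ℝ) ≤ i := by exact_mod_cast hi
    have hk' : (0 : ℝ) < k := by exact_mod_cast hk
    have h8 := mul_le_mul_of_nonneg_right h5 hk'.le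
    nlinarith
  have hp : ∀ a, (∀ M : ℝ, ∃ i0 : ℕ, ∀ j, i0 ≤ j → M < (1 : ℝ) * f (ρ a j)) ∨
      (∀ M : ℝ, ∃ i0 : ℕ, ∀ j, i0 ≤ j → M < (-1 : ℝ) * f (ρ a j)) := by
    intro a
    rcases sign a with h | h
    · left
      simpa using h
    · right
      simpa using h
  have e1 : |(1 : ℝ)| = 1 := abs_one
  have e2 : |(-1 : ℝ)| = 1 := by rw [abs_neg, abs_one]
  rcases hp 0 with h0 | h0 <;> rcases hp 1 with h1' | h1' <;> rcases hp 2 with h2' | h2'
  · exact key 0 1 (by decide) 1 e1 h0 h1'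
  · exact key 0 1 (by decide) 1 e1 h0 h1'
  · exact key 0 2 (by decide) 1 e1 h0 h2'
  · exact key 1 2 (by decide) (-1) e2 h1' h2'
  · exact key 1 2 (by decide) 1 e1 h1' h2'
  · exact key 0 2 (by decide) (-1) e2 h0 h2'
  · exact key 0 1 (by decide) (-1) e2 h0 h1'
  · exact key 0 1 (by decide) (-1) e2 h0 h1'

end Pool.Agent.Q103.EL
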