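import Mathlib
import Pool.Agent.Q103.EL.Def

set_option autoImplicit false

/-!
# Combinatorics of the defining graph, and when the electrification is bounded
-/

namespace Pool.Agent.Q103.EL

open Pool.Agent.Y33.GP

variable {V : Type} {Γ : SimpleGraph V} {H : V → Type} [∀ v, Group (H v)]

theorem exists_closed {C : SimpleGraph V} {v0 w0 : V} (h : C.Adj v0 w0) (T : Finset V)
    (hT : ∀ x ∈ T, C.Reachable v0 x) :
    ∃ p : C.Walk v0 v0, 1 ≤ p.length ∧ ∀ x ∈ T, x ∈ p.support := by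
  classical
  induction T using Finset.induction_on with
  | empty =>
    refine ⟨.cons h (.cons h.symm .nil), by simp, by simp⟩
  | insert x T _ ih =>
    obtain ⟨p, hp, hps⟩ := ih fun y hy => hT y (Finset.mem_insert_of_mem hy)
    obtain ⟨r⟩ := hT x (Finset.mem_insert_self x T)
    refine ⟨p.append (r.append r.reverse), ?_, ?_⟩
    · rw [SimpleGraph.Walk.length_append]
      omega
    · intro y hy
      rw [SimpleGraph.Walk.mem_support_append_iff, SimpleGraph.Walk.mem_support_append_iff]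
      rcases Finset.mem_insert.mp hy with rfl | hy
      · exact Or.inr (Or.inl r.end_mem_support)
      · exact Or.inl (hps y hy)

theorem exists_cover [Finite V] {C : SimpleGraph V} {v0 w0 : V} (h : C.Adj v0 w0) (U : Set V)
    (hU : ∀ x ∈ U, C.Reachable v0 x) :
    ∃ (s : ℕ → V) (k : ℕ), s 0 = v0 ∧ (∀ i, C.Adj (s i) (s (i + 1))) ∧
      ∀ x ∈ U, ∀ q, ∃ q', q ≤ q' ∧ q' < q + k ∧ s q' = x := by
  classical
  have hfin : U.Finite := Set.toFinite U
  obtain ⟨p, hp, hps⟩ := exists_closed h hfin.toFinset fun x hx => hU x (hfin.mem_toFinset.mp hx)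
  refine ⟨fun i => p.getVert (i % p.length), p.length, ?_, ?_, ?_⟩
  · change p.getVert (0 % p.length) = v0
    rw [Nat.zero_mod]
    exact p.getVert_zero
  · intro i
    have h1 : i % p.length < p.length := Nat.mod_lt _ (by omega)
    have h2 := p.adj_getVert_succ h1
    have h3 : p.getVert ((i + 1) % p.length) = p.getVert (i % p.length + 1) := by
      by_cases h4 : i % p.length + 1 < p.length
      · congr 1
        rw [Nat.add_mod]
        have h5 : 1 % p.length = 1 := Nat.mod_eq_of_lt (by omega)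
        rw [h5]
        exact Nat.mod_eq_of_lt h4
      · have h5 : i % p.length + 1 = p.length := by omega
        have h6 : (i + 1) % p.length = 0 := by
          rw [← Nat.mod_add_mod, h5, Nat.mod_self]
        rw [h5, h6, p.getVert_zero, p.getVert_length]
    change C.Adj (p.getVert (i % p.length)) (p.getVert ((i + 1) % p.length))
    rw [h3]
    exact h2
  · intro x hx q
    have h1 := hps x (hfin.mem_toFinset.mpr hx)
    rw [SimpleGraph.Walk.mem_support_iff_exists_getVert] at h1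
    obtain ⟨n, hn, hle⟩ := h1
    obtain ⟨m, hm, hmx⟩ : ∃ m, m < p.length ∧ p.getVert m = x := by
      rcases Nat.lt_or_ge n p.length with h2 | h2
      · exact ⟨n, h2, hn⟩
      · have : n = p.length := by omega
        rw [this, p.getVert_length] at hn
        exact ⟨0, by omega, by rw [p.getVert_zero]; exact hn⟩
    have h3 := Nat.div_add_mod q p.length
    have h4 : q % p.length < p.length := Nat.mod_lt _ (by omega)
    by_cases h5 : q % p.length ≤ m
    · refine ⟨p.length * (q / p.length) + m, by omega, by omega, ?_⟩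
      simp only [Nat.mul_add_mod]
      rw [Nat.mod_eq_of_lt hm]
      exact hmx
    · refine ⟨p.length * (q / p.length + 1) + m, ?_, ?_, ?_⟩
      · rw [Nat.mul_add]; omega
      · rw [Nat.mul_add]; omega
      · simp only [Nat.mul_add_mod]
        rw [Nat.mod_eq_of_lt hm]
        exact hmx

/-- The vertices which are not adjacent to all the others. -/
def nonU (Γ : SimpleGraph V) : Set V := {v | ∃ w, Γᶜ.Adj v w}

theorem compl_adj {a b : V} (h1 : a ≠ b) (h2 : ¬ Γ.Adj a b) : Γᶜ.Adj a b :=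
  (SimpleGraph.compl_adj Γ a b).mpr ⟨h1, h2⟩

theorem adj_of_not {a b : V} (h1 : a ≠ b) (h2 : ¬ Γᶜ.Adj a b) : Γ.Adj a b := by
  by_contra h
  exact h2 (compl_adj h1 h)

theorem adj_univ {a z : V} (ha : a ≠ z) (hz : z ∉ nonU Γ) : Γ.Adj a z := by
  refine adj_of_not ha fun h => hz ⟨a, h.symm⟩

theorem IsSquare.mem_nonU {a b c d : V} (h : IsSquare Γ a b c d) :
    a ∈ nonU Γ ∧ b ∈ nonU Γ ∧ c ∈ nonU Γ ∧ d ∈ nonU Γ := by
  obtain ⟨-, -, -, -, h1, h2, h3, h4⟩ := h
  exact ⟨⟨c, compl_adj h1 h2⟩, ⟨d, compl_adj h3 h4⟩, ⟨a, (compl_adj h1 h2).symm⟩,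
    ⟨b, (compl_adj h3 h4).symm⟩⟩

/-- Two complement edges in different components of the complement form a square. -/
theorem square_of {p p' z z' : V} (h1 : Γᶜ.Adj p p') (h2 : Γᶜ.Adj z z')
    (h3 : ¬ Γᶜ.Reachable p z) : IsSquare Γ p z p' z' := by
  have hp : Γᶜ.Reachable p p' := h1.reachable
  have hz : Γᶜ.Reachable z z' := h2.reachable
  have key : ∀ {a b : V}, ¬ Γᶜ.Reachable a b → Γ.Adj a b := by
    intro a b h
    refine adj_of_not (fun h' => h (h' ▸ SimpleGraph.Reachable.refl _)) fun h' => h h'.reachable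
  refine ⟨key h3, key fun h => h3 (hp.trans h.symm), key fun h => h3 ((hp.trans h).trans hz.symm),
    key fun h => h3 ?_, h1.ne, ?_, h2.ne, ?_⟩
  · exact (hz.trans h).symm
  · exact ((SimpleGraph.compl_adj Γ _ _).mp h1).2
  · exact ((SimpleGraph.compl_adj Γ _ _).mp h2).2

theorem minSquare_of_disconnected {x y : V} (hx : x ∈ nonU Γ) (hy : y ∈ nonU Γ)
    (h : ¬ Γᶜ.Reachable x y) : MinSquare Γ (nonU Γ) := by
  obtain ⟨x', hx'⟩ := hx
  obtain ⟨y', hy'⟩ := hy
  refine ⟨?_, ?_, ?_⟩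
  · intro a b c d hs _ _
    exact ⟨hs.mem_nonU.2.1, hs.mem_nonU.2.2.2⟩
  · have hs := square_of hx' hy' h
    exact ⟨_, _, _, _, hs, hs.mem_nonU.1, hs.mem_nonU.2.1, hs.mem_nonU.2.2.1, hs.mem_nonU.2.2.2⟩
  · intro Λ' hΛ' hsc ⟨a, b, c, d, hs, ha, hb, hc, hd⟩
    have key : ∀ p p', Γᶜ.Adj p p' → p ∈ Λ' → p' ∈ Λ' → ∀ z ∈ nonU Γ, ¬ Γᶜ.Reachable p z →
        z ∈ Λ' := by
      intro p p' hpp hp hp' z ⟨z', hz'⟩ hnr
      exact (hsc _ _ _ _ (square_of hpp hz' hnr) hp hp').1
    have hac : Γᶜ.Adj a c := compl_adj hs.2.2.2.2.1 hs.2.2.2.2.2.1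
    -- a vertex in another component
    obtain ⟨z, z', hzz, haz⟩ : ∃ z z', Γᶜ.Adj z z' ∧ ¬ Γᶜ.Reachable a z := by
      by_cases h1 : Γᶜ.Reachable a x
      · exact ⟨y, y', hy', fun h2 => h (h1.symm.trans h2)⟩
      · exact ⟨x, x', hx', h1⟩
    have hz : z ∈ Λ' := key a c hac ha hc z ⟨z', hzz⟩ haz
    have hz' : z' ∈ Λ' := key a c hac ha hc z' ⟨z, hzz.symm⟩
      fun h2 => haz (h2.trans hzz.symm.reachable)
    refine Set.Subset.antisymm hΛ' fun w hw => ?_
    by_cases h1 : Γᶜ.Reachable a w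
    · exact key z z' hzz hz hz' w hw fun h2 => haz (h1.trans h2.symm)
    · exact key a c hac ha hc w hw h1

/-! ### Splitting off the universal vertices -/

theorem comm_univ {z : V} (hz : z ∉ nonU Γ) (a : H z) {x : GProd Γ H}
    (hx : x ∈ sub Γ H (nonU Γ)) : inj Γ H z a * x = x * inj Γ H z a := by
  unfold sub at hx
  induction hx using Subgroup.closure_induction with
  | mem y hy =>
    obtain ⟨w, hw, b, rfl⟩ := Set.mem_iUnion₂.1 hy
    exact (inj_comm Γ H (adj_univ (fun h : w = z => hz (h ▸ hw)) hz) b a).symm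
  | one => rw [mul_one, one_mul]
  | mul y y' _ _ ih ih' => rw [← mul_assoc, ih, mul_assoc, ih', mul_assoc]
  | inv y _ ih =>
    have : inj Γ H z a * y⁻¹ = y⁻¹ * (y * inj Γ H z a) * y⁻¹ := by group
    rw [this, ← ih]
    group

theorem kap_split (x : GProd Γ H) : x = kap Γ H (nonU Γ) x * kap Γ H (nonU Γ)ᶜ x := by
  refine ind_left Γ H (P := fun x => x = kap Γ H (nonU Γ) x * kap Γ H (nonU Γ)ᶜ x) x (by simp) ?_
  intro v a x hx
  rw [map_mul, map_mul]
  by_cases h : v ∈ nonU Γ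
  · rw [kap_mem Γ H h, kap_not Γ H (Λ := (nonU Γ)ᶜ) (fun h' => h' h), one_mul, mul_assoc, ← hx]
  · rw [kap_not Γ H h, kap_mem Γ H (Λ := (nonU Γ)ᶜ) h, one_mul, ← mul_assoc,
      ← comm_univ h a (kap_mem_sub _ x), mul_assoc, ← hx]

theorem finite_clique [∀ v, Finite (H v)] (T : Finset V)
    (hT : ∀ x ∈ T, ∀ y ∈ T, x ≠ y → Γ.Adj x y) : (sub Γ H (T : Set V) : Set (GProd Γ H)).Finite := by
  classical
  induction T using Finset.induction_on with
  | empty =>
    have : sub Γ H ((∅ : Finset V) : Set V) = ⊥ := by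
      unfold sub
      simp
    rw [this]
    exact Set.finite_singleton 1
  | insert z T hz ih =>
    have ih' := ih fun x hx y hy => hT x (Finset.mem_insert_of_mem hx) y (Finset.mem_insert_of_mem hy)
    have hcomm : ∀ (a : H z), ∀ s ∈ sub Γ H (T : Set V), s * inj Γ H z a = inj Γ H z a * s := by
      intro a s hs
      unfold sub at hs
      induction hs using Subgroup.closure_induction with
      | mem y hy =>
        obtain ⟨w, hw, b, rfl⟩ := Set.mem_iUnion₂.1 hy
        exact inj_comm Γ H (hT w (Finset.mem_insert_of_mem hw) z (Finset.mem_insert_self _ _)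
          (fun h => hz (h ▸ hw))) b a
      | one => rw [mul_one, one_mul]
      | mul y y' _ _ ih ih' => rw [mul_assoc, ih', ← mul_assoc, ih, mul_assoc]
      | inv y _ ih =>
        have : y⁻¹ * inj Γ H z a = y⁻¹ * (inj Γ H z a * y) * y⁻¹ := by group
        rw [this, ← ih]
        group
    refine ((Set.finite_range (inj Γ H z)).image2 (fun a s => a * s) ih').subset ?_
    intro x hx
    have hx' : x ∈ sub Γ H ((insert z T : Finset V) : Set V) := hx
    unfold sub at hx'
    induction hx' using Subgroup.closure_induction with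
    | mem y hy =>
      obtain ⟨w, hw, b, rfl⟩ := Set.mem_iUnion₂.1 hy
      rw [Finset.coe_insert, Set.mem_insert_iff] at hw
      rcases hw with rfl | hw
      · exact ⟨_, ⟨b, rfl⟩, 1, Subgroup.one_mem _, mul_one _⟩
      · exact ⟨_, ⟨1, rfl⟩, inj Γ H w b, inj_mem_sub hw b, by simp⟩
    | one => exact ⟨_, ⟨1, rfl⟩, 1, Subgroup.one_mem _, by simp⟩
    | mul y y' hy hy' ih ih' =>
      obtain ⟨_, ⟨a, rfl⟩, s, hs, rfl⟩ := ih hy
      obtain ⟨_, ⟨a', rfl⟩, s', hs', rfl⟩ := ih' hy'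
      refine ⟨_, ⟨a * a', rfl⟩, s * s', Subgroup.mul_mem _ hs hs', ?_⟩
      simp only
      rw [map_mul, mul_assoc, mul_assoc, ← mul_assoc s, hcomm a' s hs]
      simp only [mul_assoc]
    | inv y hy ih =>
      obtain ⟨_, ⟨a, rfl⟩, s, hs, rfl⟩ := ih hy
      refine ⟨_, ⟨a⁻¹, rfl⟩, s⁻¹, Subgroup.inv_mem _ hs, ?_⟩
      simp only
      rw [mul_inv_rev, map_inv]
      have h1 := hcomm a s hs
      have h2 : (s * inj Γ H z a)⁻¹ = (inj Γ H z a * s)⁻¹ := by rw [h1]
      rw [mul_inv_rev, mul_inv_rev] at h2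
      exact h2

theorem finite_univ [Finite V] [∀ v, Finite (H v)] :
    (sub Γ H (nonU Γ)ᶜ : Set (GProd Γ H)).Finite := by
  have hfin : ((nonU Γ)ᶜ).Finite := Set.toFinite _
  have := finite_clique (Γ := Γ) (H := H) hfin.toFinset (by
    intro x _ y hy hxy
    exact adj_univ hxy (hfin.mem_toFinset.mp hy))
  rwa [hfin.coe_toFinset] at this

/-! ### Bounded elements -/

/-- Multiplication by `g` on the right moves every vertex by at most `m`. -/
def Bd (E : SimpleGraph (GProd Γ H)) (m : ℕ) (g : GProd Γ H) : Prop :=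
  ∀ x, E.dist x (x * g) ≤ m

theorem connected_elec : (elec Γ H).Connected := by
  have h1 : ∀ x : GProd Γ H, ∀ y, (elec Γ H).Reachable y (y * x) := by
    intro x
    refine ind_right (P := fun x => ∀ y, (elec Γ H).Reachable y (y * x)) x ?_ ?_
    · intro y
      rw [mul_one]
    · intro v a x hx y
      refine (hx y).trans ?_
      by_cases h : y * x = y * (x * inj Γ H v a)
      · rw [← h]
      · refine SimpleGraph.Adj.reachable ⟨h, Or.inl ⟨v, a, ?_⟩⟩
        group
  exact ⟨fun x y => by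
    have := h1 (x⁻¹ * y) x
    rwa [mul_inv_cancel_left] at this⟩

theorem Bd.mul {m n : ℕ} {g h : GProd Γ H} (hg : Bd (elec Γ H) m g) (hh : Bd (elec Γ H) n h) :
    Bd (elec Γ H) (m + n) (g * h) := by
  intro x
  have h1 := (connected_elec (Γ := Γ) (H := H)).dist_triangle (u := x) (v := x * g)
    (w := x * (g * h))
  have h2 := hg x
  have h3 := hh (x * g)
  rw [mul_assoc] at h3
  omega

theorem Bd.mono {m n : ℕ} {g : GProd Γ H} {E : SimpleGraph (GProd Γ H)} (hg : Bd E m g)
    (h : m ≤ n) : Bd E n g := fun x => (hg x).trans h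

theorem bd_gens {g : GProd Γ H} (hg : g ∈ gens Γ H) : Bd (elec Γ H) 1 g := by
  intro x
  by_cases h : x = x * g
  · rw [← h, SimpleGraph.dist_self]
    exact Nat.zero_le _
  · have : (elec Γ H).Adj x (x * g) := ⟨h, by rwa [inv_mul_cancel_left]⟩
    rw [SimpleGraph.dist_eq_one_iff_adj.mpr this]

theorem bd_inj (v : V) (a : H v) : Bd (elec Γ H) 1 (inj Γ H v a) := bd_gens (Or.inl ⟨v, a, rfl⟩)

theorem bd_one : Bd (elec Γ H) 0 1 := by
  intro x
  rw [mul_one, SimpleGraph.dist_self]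

theorem exists_bd (g : GProd Γ H) : ∃ m, Bd (elec Γ H) m g := by
  refine ind_right (P := fun g => ∃ m, Bd (elec Γ H) m g) g ⟨0, bd_one⟩ ?_
  rintro v a x ⟨m, hm⟩
  exact ⟨m + 1, hm.mul (bd_inj v a)⟩

theorem exists_bd_finite {F : Set (GProd Γ H)} (hF : F.Finite) :
    ∃ m, ∀ g ∈ F, Bd (elec Γ H) m g := by
  classical
  choose f hf using fun g : GProd Γ H => exists_bd g
  exact ⟨hF.toFinset.sup f, fun g hg =>
    (hf g).mono (Finset.le_sup (f := f) (hF.mem_toFinset.mpr hg))⟩

theorem not_quasiLine_of_bounded {X : Type} {E : SimpleGraph X} {m : ℕ}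
    (h : ∀ x y, E.dist x y ≤ m) : ¬ QuasiLine E := by
  rintro ⟨-, f, K, C, hK, hC, hf, hs⟩
  obtain ⟨x, hx⟩ := hs 0
  obtain ⟨y, hy⟩ := hs (K * m + 3 * C + 1)
  have h1 := (hf x y).2
  have h2 : (E.dist x y : ℝ) ≤ m := by exact_mod_cast h x y
  have h3 : K * (E.dist x y : ℝ) ≤ K * m := mul_le_mul_of_nonneg_left h2 (by linarith)
  rw [abs_le] at h1 hx hy
  linarith [h1.1, h1.2, hx.1, hx.2, hy.1, hy.2]

/-- If the electrification is a quasi-line then the nonuniversal vertices form one nonempty component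
of the complement, which is contained in no minsquare subgraph. -/
theorem unbounded_cases [Finite V] [∀ v, Finite (H v)] (h : QuasiLine (elec Γ H)) :
    (nonU Γ).Nonempty ∧ (∀ x ∈ nonU Γ, ∀ y ∈ nonU Γ, Γᶜ.Reachable x y) ∧
      ∀ Λ, MinSquare Γ Λ → ¬ nonU Γ ⊆ Λ := by
  obtain ⟨m, hm⟩ := exists_bd_finite (finite_univ (Γ := Γ) (H := H))
  have key : ∀ n, (∀ x : GProd Γ H, Bd (elec Γ H) n (kap Γ H (nonU Γ) x)) → False := by
    intro n hn
    refine not_quasiLine_of_bounded (m := n + m) (fun x y => ?_) h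
    have h1 := kap_split (Γ := Γ) (H := H) (x⁻¹ * y)
    have h2 := (hn (x⁻¹ * y)).mul (hm _ (kap_mem_sub (nonU Γ)ᶜ (x⁻¹ * y)))
    rw [← h1] at h2
    have h3 := h2 x
    rwa [mul_inv_cancel_left] at h3
  have h3 : ∀ Λ, MinSquare Γ Λ → ¬ nonU Γ ⊆ Λ := by
    intro Λ hΛ hsub
    exact key 1 fun x => bd_gens (Or.inr ⟨Λ, hΛ, sub_mono hsub (kap_mem_sub _ x)⟩)
  refine ⟨?_, ?_, h3⟩
  · by_contra hne
    rw [Set.not_nonempty_iff_eq_empty] at hne
    refine key 0 fun x => ?_
    have : kap Γ H (nonU Γ) x = 1 := by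
      rw [hne]
      refine ind_left Γ H (P := fun x => kap Γ H ∅ x = 1) x (map_one _) ?_
      intro v a x hx
      rw [map_mul, hx, kap_not Γ H (Set.notMem_empty v), mul_one]
    rw [this]
    exact bd_one
  · intro x hx y hy
    by_contra hnr
    exact h3 _ (minSquare_of_disconnected hx hy hnr) subset_rfl

end Pool.Agent.Q103.EL
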