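import Mathlib
import Pool.Agent.Q103.EL.Comb

set_option autoImplicit false

/-!
# Branching: the electrification is not a quasi-line, the group is not virtually cyclic
-/

namespace Pool.Agent.Q103.EL

open Pool.Agent.Y33.GP

variable {V : Type} {Γ : SimpleGraph V} {H : V → Type} [∀ v, Group (H v)]

/-- There are two nontrivial elements in the vertex groups of the vertices which are not adjacent
to `v0`. -/
def Rich (Γ : SimpleGraph V) (H : V → Type) [∀ v, Group (H v)] (v0 : V) : Prop :=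
  (∃ w w', w ≠ w' ∧ Γᶜ.Adj v0 w ∧ Γᶜ.Adj v0 w') ∨
    ∃ w, Γᶜ.Adj v0 w ∧ ∃ a a' : H w, a ≠ 1 ∧ a' ≠ 1 ∧ a ≠ a'

theorem Rich.exists_adj {v0 : V} (h : Rich Γ H v0) : ∃ w, Γᶜ.Adj v0 w := by
  rcases h with ⟨w, w', -, h, -⟩ | ⟨w, h, -⟩
  · exact ⟨w, h⟩
  · exact ⟨w, h⟩

theorem branches (S : Rigid Γ H) (h : Rich Γ H (S.v 0)) :
    ∃ t : Fin 3 → GProd Γ H, (∀ i j, i ≠ j → S.Sep ((t i)⁻¹ * t j)) ∧
      ∀ i, ∃ (w : V) (a : H w), t i = inj Γ H w a := by
  rcases h with ⟨w, w', hne, hw, hw'⟩ | ⟨w, hw, a, a', ha, ha', hne⟩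
  · refine ⟨![1, inj Γ H w (S.τ w), inj Γ H w' (S.τ w')], ?_, ?_⟩
    · intro i j hij
      have n1 := S.ne w
      have n2 := S.ne w'
      fin_cases i <;> fin_cases j
      · exact absurd rfl hij
      · change S.Sep ((1 : GProd Γ H)⁻¹ * inj Γ H w (S.τ w))
        rw [inv_one, one_mul]
        exact S.sep_one hw n1
      · change S.Sep ((1 : GProd Γ H)⁻¹ * inj Γ H w' (S.τ w'))
        rw [inv_one, one_mul]
        exact S.sep_one hw' n2
      · change S.Sep ((inj Γ H w (S.τ w))⁻¹ * 1)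
        rw [mul_one, ← map_inv]
        exact S.sep_one hw (inv_ne_one.mpr n1)
      · exact absurd rfl hij
      · change S.Sep ((inj Γ H w (S.τ w))⁻¹ * inj Γ H w' (S.τ w'))
        rw [← map_inv]
        exact S.sep_two hw hw' hne (inv_ne_one.mpr n1) n2
      · change S.Sep ((inj Γ H w' (S.τ w'))⁻¹ * 1)
        rw [mul_one, ← map_inv]
        exact S.sep_one hw' (inv_ne_one.mpr n2)
      · change S.Sep ((inj Γ H w' (S.τ w'))⁻¹ * inj Γ H w (S.τ w))
        rw [← map_inv]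
        exact S.sep_two hw' hw hne.symm (inv_ne_one.mpr n2) n1
      · exact absurd rfl hij
    · intro i
      fin_cases i
      · exact ⟨w, 1, (map_one _).symm⟩
      · exact ⟨w, _, rfl⟩
      · exact ⟨w', _, rfl⟩
  · refine ⟨![1, inj Γ H w a, inj Γ H w a'], ?_, ?_⟩
    · intro i j hij
      have n3 : a⁻¹ * a' ≠ 1 := fun h => hne (inv_mul_eq_one.mp h)
      have n4 : a'⁻¹ * a ≠ 1 := fun h => hne (inv_mul_eq_one.mp h).symm
      fin_cases i <;> fin_cases j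
      · exact absurd rfl hij
      · change S.Sep ((1 : GProd Γ H)⁻¹ * inj Γ H w a)
        rw [inv_one, one_mul]
        exact S.sep_one hw ha
      · change S.Sep ((1 : GProd Γ H)⁻¹ * inj Γ H w a')
        rw [inv_one, one_mul]
        exact S.sep_one hw ha'
      · change S.Sep ((inj Γ H w a)⁻¹ * 1)
        rw [mul_one, ← map_inv]
        exact S.sep_one hw (inv_ne_one.mpr ha)
      · exact absurd rfl hij
      · change S.Sep ((inj Γ H w a)⁻¹ * inj Γ H w a')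
        rw [← map_inv, ← map_mul]
        exact S.sep_one hw n3
      · change S.Sep ((inj Γ H w a')⁻¹ * 1)
        rw [mul_one, ← map_inv]
        exact S.sep_one hw (inv_ne_one.mpr ha')
      · change S.Sep ((inj Γ H w a')⁻¹ * inj Γ H w a)
        rw [← map_inv, ← map_mul]
        exact S.sep_one hw n4
      · exact absurd rfl hij
    · intro i
      fin_cases i
      · exact ⟨w, 1, (map_one _).symm⟩
      · exact ⟨w, _, rfl⟩
      · exact ⟨w, _, rfl⟩

theorem β_walk (S : Rigid Γ H) {k : ℕ} {E : SimpleGraph (GProd Γ H)}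
    (hE : ∀ x y, E.Adj x y → ∃ Λ, S.Win k Λ ∧ x⁻¹ * y ∈ sub Γ H Λ) (t : GProd Γ H) {z z' : GProd Γ H}
    (p : E.Walk z z') : ∀ q, S.β t q z = 1 → S.β t (q + p.length * k) z' = 1 := by
  induction p with
  | nil =>
    intro q h
    rw [SimpleGraph.Walk.length_nil, zero_mul, add_zero]
    exact h
  | cons h p ih =>
    rename_i x y z'
    intro q hq
    obtain ⟨Λ, hΛ, hs⟩ := hE _ _ h
    have h1 := S.β_step hΛ hs hq
    rw [mul_inv_cancel_left] at h1
    have h2 := ih (q + k) h1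
    rw [SimpleGraph.Walk.length_cons]
    have e : q + (p.length + 1) * k = q + k + p.length * k := by ring
    rw [e]
    exact h2

theorem β_dist (S : Rigid Γ H) {k : ℕ} {E : SimpleGraph (GProd Γ H)} (hc : E.Connected)
    (hE : ∀ x y, E.Adj x y → ∃ Λ, S.Win k Λ ∧ x⁻¹ * y ∈ sub Γ H Λ) {t z : GProd Γ H} {q : ℕ}
    (h : S.β t q z = 1) (j : ℕ) : j ≤ q + E.dist z (t * S.R j) * k := by
  cases j with
  | zero => exact Nat.zero_le _
  | succ j =>
    by_contra hcon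
    obtain ⟨p, hp⟩ := hc.exists_walk_length_eq_dist z (t * S.R (j + 1))
    have h1 := β_walk S hE t p q h
    rw [hp] at h1
    exact S.β_end t j (S.β_mono' h1 (by omega))

/-- If the electrification is a quasi-line then no vertex is rich. -/
theorem not_rich [Finite V] [∀ v, Finite (H v)] [∀ v, Nontrivial (H v)]
    (h : QuasiLine (elec Γ H)) (v0 : V) : ¬ Rich Γ H v0 := by
  intro hr
  obtain ⟨-, hconn, hmin⟩ := unbounded_cases h
  obtain ⟨w0, hw0⟩ := hr.exists_adj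
  have hv0 : v0 ∈ nonU Γ := ⟨w0, hw0⟩
  have hw0' : w0 ∈ nonU Γ := ⟨v0, hw0.symm⟩
  obtain ⟨s, k, hs0, hs, hcov⟩ := exists_cover hw0 (nonU Γ) fun x hx => hconn v0 hv0 x hx
  choose τ hτ using fun v => exists_ne (1 : H v)
  let S : Rigid Γ H := ⟨s, τ, hs, hτ⟩
  have hwin : ∀ Λ, ¬ nonU Γ ⊆ Λ → S.Win k Λ := by
    intro Λ hΛ q
    obtain ⟨x, hx, hx'⟩ := Set.not_subset.mp hΛ
    obtain ⟨q', h1, h2, h3⟩ := hcov x hx q
    exact ⟨q', h1, h2, by change s q' ∉ Λ; rw [h3]; exact hx'⟩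
  have hE : ∀ x y, (elec Γ H).Adj x y → ∃ Λ, S.Win k Λ ∧ x⁻¹ * y ∈ sub Γ H Λ := by
    rintro x y ⟨-, ⟨v, a, hva⟩ | ⟨Λ, hΛ, hm⟩⟩
    · refine ⟨{v}, hwin _ ?_, by rw [hva]; exact inj_mem_sub (Set.mem_singleton v) a⟩
      intro hsub
      have h1 : v0 = v := hsub hv0
      have h2 : w0 = v := hsub hw0'
      exact hw0.ne (h1.trans h2.symm)
    · exact ⟨Λ, hwin _ (hmin Λ hΛ), hm⟩
  have hr' : Rich Γ H (S.v 0) := by
    change Rich Γ H (s 0)
    rw [hs0]
    exact hr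
  obtain ⟨t, ht, -⟩ := branches S hr'
  refine three_rays h (fun a i => t a * S.R i) k ?_ ?_ ?_
  · intro a i
    have := bd_inj (Γ := Γ) (H := H) (S.v i) (S.τ (S.v i)) (t a * S.R i)
    rw [mul_assoc] at this
    exact this
  · intro a i j
    exact β_dist S h.1 hE (S.β_start (t a) i) j
  · intro a b hab i j
    exact β_dist S h.1 hE (S.β_sep (ht b a hab.symm) i) j

/-! ### The group is not virtually cyclic -/

/-- The alternating sequence. -/
def alt {v0 w0 : V} (h : Γᶜ.Adj v0 w0) (τ : ∀ w, H w) (hτ : ∀ w, τ w ≠ 1) : Rigid Γ H where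
  v i := if i % 2 = 0 then v0 else w0
  τ := τ
  adj i := by
    rcases Nat.mod_two_eq_zero_or_one i with h1 | h1
    · have h2 : (i + 1) % 2 = 1 := by omega
      rw [if_pos h1, h2]
      exact h
    · have h2 : (i + 1) % 2 = 0 := by omega
      rw [if_neg (by omega), h2]
      exact h.symm
  ne := hτ

theorem alt_win {v0 w0 : V} (h : Γᶜ.Adj v0 w0) (τ : ∀ w, H w) (hτ : ∀ w, τ w ≠ 1) (x : V) :
    (alt h τ hτ).Win 2 {x} := by
  intro q
  by_cases h1 : (alt h τ hτ).v q = x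
  · refine ⟨q + 1, by omega, by omega, ?_⟩
    intro h2
    have h3 : (alt h τ hτ).v (q + 1) = x := h2
    exact ((alt h τ hτ).adj q).ne (h1.trans h3.symm)
  · exact ⟨q, le_rfl, by omega, h1⟩

theorem alt_R {v0 w0 : V} (h : Γᶜ.Adj v0 w0) (τ : ∀ w, H w) (hτ : ∀ w, τ w ≠ 1) (n : ℕ) :
    (alt h τ hτ).R (2 * n) = (inj Γ H v0 (τ v0) * inj Γ H w0 (τ w0)) ^ n := by
  induction n with
  | zero => rw [pow_zero]; rfl
  | succ n ih =>
    have e : (alt h τ hτ).R (2 * (n + 1)) = (alt h τ hτ).R (2 * n) *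
        inj Γ H ((alt h τ hτ).v (2 * n)) (τ ((alt h τ hτ).v (2 * n))) *
        inj Γ H ((alt h τ hτ).v (2 * n + 1)) (τ ((alt h τ hτ).v (2 * n + 1))) := rfl
    have e1 : (alt h τ hτ).v (2 * n) = v0 := by
      change (if 2 * n % 2 = 0 then v0 else w0) = v0
      rw [if_pos (by omega)]
    have e2 : (alt h τ hτ).v (2 * n + 1) = w0 := by
      change (if (2 * n + 1) % 2 = 0 then v0 else w0) = w0
      rw [if_neg (by omega)]
    rw [e, e1, e2, ih, pow_succ, mul_assoc]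

theorem infinite_order {v0 w0 : V} (h : Γᶜ.Adj v0 w0) {a : H v0} {b : H w0} (ha : a ≠ 1)
    (hb : b ≠ 1) [∀ v, Nontrivial (H v)] {n : ℕ} (hn : n ≠ 0) :
    (inj Γ H v0 a * inj Γ H w0 b) ^ n ≠ 1 := by
  classical
  choose τ0 hτ0 using fun v => exists_ne (1 : H v)
  have hex : ∃ τ : ∀ w, H w, (∀ w, τ w ≠ 1) ∧ τ v0 = a ∧ τ w0 = b := by
    refine ⟨Function.update (Function.update τ0 w0 b) v0 a, ?_, by simp, ?_⟩
    · intro w
      by_cases h1 : w = v0
      · subst h1; simpa using ha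
      · rw [Function.update_of_ne h1]
        by_cases h2 : w = w0
        · subst h2; simpa using hb
        · rw [Function.update_of_ne h2]; exact hτ0 w
    · rw [Function.update_of_ne h.ne.symm]
      simp
  obtain ⟨τ, hτ, rfl, rfl⟩ := hex
  intro h1
  rw [← alt_R h τ hτ] at h1
  have h2 : (alt h τ hτ).β 1 0 1 = 1 := by
    have := (alt h τ hτ).β_start 1 0
    have e : (1 : GProd Γ H) * (alt h τ hτ).R 0 = 1 := mul_one _
    rwa [e] at this
  obtain ⟨m, rfl⟩ := Nat.exists_eq_succ_of_ne_zero hn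
  have h3 := (alt h τ hτ).β_mono h2 (2 * m + 1)
  have h4 := (alt h τ hτ).β_end 1 (2 * m + 1)
  have e : 2 * m + 1 + 1 = 2 * (m + 1) := by ring
  rw [e, one_mul] at h4
  rw [Nat.succ_eq_add_one] at h1
  rw [h1] at h4
  rw [zero_add] at h3
  exact h4 h3

theorem conj_false (S : Rigid Γ H) (hS : ∀ x, S.Win 2 {x}) {p : GProd Γ H}
    (hp : ∀ n, S.R (2 * n) = p ^ n) {t t' : GProd Γ H} (hsep : S.Sep (t⁻¹ * t'))
    (ht : ∃ (w : V) (a : H w), t = inj Γ H w a) (ht' : ∃ (w : V) (a : H w), t' = inj Γ H w a)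
    {A B : ℕ} (hA : 3 ≤ A) (h : t * p ^ A * t⁻¹ = t' * p ^ B * t'⁻¹) : False := by
  have h1 := S.β_sep hsep (2 * B)
  obtain ⟨w, a, ha⟩ := ht
  obtain ⟨w', a', ha'⟩ := ht'
  have s1 : t'⁻¹ ∈ sub Γ H {w'} := by
    rw [ha', ← map_inv]
    exact inj_mem_sub (Set.mem_singleton w') _
  have s2 : t ∈ sub Γ H {w} := by
    rw [ha]
    exact inj_mem_sub (Set.mem_singleton w) _
  have h2 : S.β t (1 + 2) (t' * S.R (2 * B) * t'⁻¹) = 1 := S.β_step (hS w') s1 h1
  have h3 : S.β t (1 + 2 + 2) (t' * S.R (2 * B) * t'⁻¹ * t) = 1 := S.β_step (hS w) s2 h2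
  rw [hp, ← h, inv_mul_cancel_right, ← hp] at h3
  obtain ⟨m, rfl⟩ := Nat.exists_eq_add_of_le hA
  have h4 := S.β_end t (2 * m + 5)
  have e : 2 * m + 5 + 1 = 2 * (3 + m) := by ring
  rw [e] at h4
  exact h4 (S.β_mono' h3 (by omega))

theorem exists_zpow {G : Type} [Group G] {c : G} (hc : (Subgroup.zpowers c).FiniteIndex) (x : G)
    (hx : ∀ n : ℕ, n ≠ 0 → x ^ n ≠ 1) : ∃ (M : ℕ) (e : ℤ), 0 < M ∧ e ≠ 0 ∧ x ^ M = c ^ e := by
  obtain ⟨M, hM, -, h⟩ := Subgroup.exists_pow_mem_of_index_ne_zero hc.index_ne_zero x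
  obtain ⟨e, he⟩ := Subgroup.mem_zpowers_iff.mp h
  refine ⟨M, e, hM, ?_, he.symm⟩
  rintro rfl
  rw [zpow_zero] at he
  exact hx M hM.ne' he.symm

theorem not_vc_of_rich [∀ v, Nontrivial (H v)] {v0 : V} (hr : Rich Γ H v0) :
    ¬ VirtuallyCyclic (GProd Γ H) := by
  rintro ⟨c, hc⟩
  obtain ⟨w0, hw0⟩ := hr.exists_adj
  choose τ hτ using fun v => exists_ne (1 : H v)
  have hr' : Rich Γ H ((alt hw0 τ hτ).v 0) := hr
  obtain ⟨t, ht, ht'⟩ := branches _ hr'
  set p := inj Γ H v0 (τ v0) * inj Γ H w0 (τ w0) with hp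
  have hinf : ∀ n : ℕ, n ≠ 0 → p ^ n ≠ 1 := fun n hn =>
    infinite_order hw0 (hτ v0) (hτ w0) hn
  have hinf' : ∀ a (n : ℕ), n ≠ 0 → (t a * p * (t a)⁻¹) ^ n ≠ 1 := by
    intro a n hn h
    rw [conj_pow] at h
    have : p ^ n = 1 := by
      have h1 : t a * p ^ n = t a := by
        have := congrArg (· * t a) h
        simpa using this
      exact mul_eq_left.mp h1
    exact hinf n hn this
  choose M e hM he hMe using fun a => exists_zpow hc _ (hinf' a)
  have key : ∀ a b, a ≠ b → e a * (e b).natAbs = e b * (e a).natAbs → False := by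
    intro a b hab heq
    have h1 : t a * p ^ (M a * ((e b).natAbs * 3)) * (t a)⁻¹ =
        t b * p ^ (M b * ((e a).natAbs * 3)) * (t b)⁻¹ := by
      rw [← conj_pow, ← conj_pow, pow_mul _ (M a), pow_mul _ (M b), hMe, hMe, ← zpow_natCast,
        ← zpow_natCast,
        ← zpow_mul, ← zpow_mul]
      congr 1
      push_cast
      rw [← mul_assoc, ← mul_assoc]
      have := congrArg (· * (3 : ℤ)) heq
      push_cast at this
      exact this
    refine conj_false _ (alt_win hw0 τ hτ) (alt_R hw0 τ hτ) (ht a b hab) (ht' a) (ht' b) ?_ h1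
    have h2 : 1 ≤ (e b).natAbs := Int.natAbs_pos.mpr (he b)
    have h3 : 1 ≤ M a := hM a
    nlinarith
  have hs : ∀ a, (0 < e a) ∨ e a < 0 := fun a => (he a).lt_or_gt.symm
  have same : ∀ a b, a ≠ b → (0 < e a ∧ 0 < e b) ∨ (e a < 0 ∧ e b < 0) → False := by
    intro a b hab h
    apply key a b hab
    rcases h with ⟨h1, h2⟩ | ⟨h1, h2⟩
    · rw [Int.natAbs_of_nonneg h1.le, Int.natAbs_of_nonneg h2.le, mul_comm]
    · rw [Int.ofNat_natAbs_of_nonpos h1.le, Int.ofNat_natAbs_of_nonpos h2.le]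
      ring
  rcases hs 0 with h0 | h0 <;> rcases hs 1 with h1 | h1 <;> rcases hs 2 with h2 | h2
  · exact same 0 1 (by decide) (Or.inl ⟨h0, h1⟩)
  · exact same 0 1 (by decide) (Or.inl ⟨h0, h1⟩)
  · exact same 0 2 (by decide) (Or.inl ⟨h0, h2⟩)
  · exact same 1 2 (by decide) (Or.inr ⟨h1, h2⟩)
  · exact same 1 2 (by decide) (Or.inl ⟨h1, h2⟩)
  · exact same 0 2 (by decide) (Or.inr ⟨h0, h2⟩)
  · exact same 0 1 (by decide) (Or.inr ⟨h0, h1⟩)
  · exact same 0 1 (by decide) (Or.inr ⟨h0, h1⟩)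

theorem not_vc_of_two [∀ v, Nontrivial (H v)] {u v u' v' : V} (h : Γᶜ.Adj u v)
    (h' : Γᶜ.Adj u' v') (h1 : u' ≠ u) (h2 : u' ≠ v) (h3 : v' ≠ u) (h4 : v' ≠ v) :
    ¬ VirtuallyCyclic (GProd Γ H) := by
  rintro ⟨c, hc⟩
  choose τ hτ using fun v => exists_ne (1 : H v)
  have i1 : ∀ n : ℕ, n ≠ 0 → (inj Γ H u (τ u) * inj Γ H v (τ v)) ^ n ≠ 1 := fun n hn =>
    infinite_order h (hτ u) (hτ v) hn
  have i2 : ∀ n : ℕ, n ≠ 0 → (inj Γ H u' (τ u') * inj Γ H v' (τ v')) ^ n ≠ 1 := fun n hn =>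
    infinite_order h' (hτ u') (hτ v') hn
  obtain ⟨M, e, hM, he, hMe⟩ := exists_zpow hc _ i1
  obtain ⟨M', e', hM', he', hMe'⟩ := exists_zpow hc _ i2
  have e1 : ((inj Γ H u (τ u) * inj Γ H v (τ v)) ^ M) ^ e' =
      ((inj Γ H u' (τ u') * inj Γ H v' (τ v')) ^ M') ^ e := by
    rw [hMe, hMe', ← zpow_mul, ← zpow_mul, mul_comm]
  have e2 := congrArg (kap Γ H {u, v}) e1
  rw [map_zpow, map_zpow, map_pow, map_pow, map_mul, map_mul,
    kap_mem Γ H (by simp : u ∈ ({u, v} : Set V)), kap_mem Γ H (by simp : v ∈ ({u, v} : Set V)),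
    kap_not Γ H (by simp [h1, h2] : u' ∉ ({u, v} : Set V)),
    kap_not Γ H (by simp [h3, h4] : v' ∉ ({u, v} : Set V)), mul_one, one_pow, one_zpow] at e2
  have e3 : ((inj Γ H u (τ u) * inj Γ H v (τ v)) ^ M) ^ e'.natAbs = 1 := by
    rcases Int.natAbs_eq e' with h5 | h5
    · rw [h5, zpow_natCast] at e2
      exact e2
    · rw [h5, zpow_neg, inv_eq_one, zpow_natCast] at e2
      exact e2
  rw [← pow_mul] at e3
  exact i1 _ (Nat.mul_ne_zero hM.ne' (Int.natAbs_ne_zero.mpr he')) e3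

end Pool.Agent.Q103.EL
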