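import Mathlib
import Pool.Agent.Q103.EL.Rich

set_option autoImplicit false

/-!
# The linear case
-/

namespace Pool.Agent.Q103.EL

open Pool.Agent.Y33.GP

variable {V : Type} {Γ : SimpleGraph V} {H : V → Type} [∀ v, Group (H v)]

theorem card2 {A : Type} [Group A] (h : Nat.card A = 2) {x y : A} (hx : x ≠ 1) (hy : y ≠ 1) :
    x * y = 1 := by
  have key : ∀ x y : A, x ≠ 1 → y ≠ 1 → x = y := by
    intro x y hx hy
    obtain ⟨a, b, hab, hu⟩ := Nat.card_eq_two_iff.mp h
    have m : ∀ z : A, z = a ∨ z = b := by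
      intro z
      have : z ∈ ({a, b} : Set A) := by rw [hu]; trivial
      simpa using this
    rcases m x with h1 | h1 <;> rcases m y with h2 | h2 <;> rcases m 1 with h3 | h3
    · rw [h1, h2]
    · rw [h1, h2]
    · exact absurd (h1.trans h3.symm) hx
    · exact absurd (h2.trans h3.symm) hy
    · exact absurd (h2.trans h3.symm) hy
    · exact absurd (h1.trans h3.symm) hx
    · rw [h1, h2]
    · rw [h1, h2]
  have h1 : x⁻¹ = y := key _ _ (inv_ne_one.mpr hx) hy
  rw [← h1, mul_inv_cancel]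

/-- The two reflections. -/
def refl0 : Equiv.Perm ℤ := Equiv.neg ℤ

/-- The other reflection. -/
def refl1 : Equiv.Perm ℤ := Equiv.subLeft 1

theorem refl0_apply (n : ℤ) : refl0 n = -n := rfl

theorem refl1_apply (n : ℤ) : refl1 n = 1 - n := rfl

theorem refl0_sq : refl0 * refl0 = 1 := by
  ext n
  change - - n = n
  ring

theorem refl1_sq : refl1 * refl1 = 1 := by
  ext n
  change 1 - (1 - n) = n
  ring

/-- There are two vertices `u`, `v` which are not adjacent and have vertex groups of order two, and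
all other pairs of different vertices are adjacent. -/
structure LineData (Γ : SimpleGraph V) (H : V → Type) [∀ v, Group (H v)] where
  /-- first vertex -/
  u : V
  /-- second vertex -/
  v : V
  adj : Γᶜ.Adj u v
  cu : Nat.card (H u) = 2
  cv : Nat.card (H v) = 2
  uniq : ∀ x y, Γᶜ.Adj x y → (x = u ∧ y = v) ∨ (x = v ∧ y = u)

namespace LineData

variable (D : LineData Γ H)

open Classical in
/-- The reflection of a vertex. -/
noncomputable def sg (w : V) : Equiv.Perm ℤ := if w = D.u then refl0 else if w = D.v then refl1 else 1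

open Classical in
/-- The action of the vertex groups. -/
noncomputable def act1 (w : V) : H w →* Equiv.Perm ℤ where
  toFun x := if x = 1 then 1 else D.sg w
  map_one' := if_pos rfl
  map_mul' x y := by
    by_cases hx : x = 1
    · subst hx; simp
    · by_cases hy : y = 1
      · subst hy; simp
      · rw [if_neg hx, if_neg hy]
        unfold sg
        by_cases h1 : w = D.u
        · subst h1
          rw [if_pos rfl, refl0_sq, card2 D.cu hx hy, if_pos rfl]
        · rw [if_neg h1]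
          by_cases h2 : w = D.v
          · subst h2
            rw [if_pos rfl, refl1_sq, card2 D.cv hx hy, if_pos rfl]
          · rw [if_neg h2]
            simp

theorem act1_apply {w : V} {x : H w} (hx : x ≠ 1) : D.act1 w x = D.sg w := if_neg hx

theorem act1_other {w : V} (h1 : w ≠ D.u) (h2 : w ≠ D.v) (x : H w) : D.act1 w x = 1 := by
  by_cases hx : x = 1
  · rw [hx, map_one]
  · rw [D.act1_apply hx]
    unfold sg
    rw [if_neg h1, if_neg h2]

/-- The action of the group on the integers. -/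
noncomputable def θ : GProd Γ H →* Equiv.Perm ℤ := lift Γ H D.act1 (by
  intro w w' h a b
  have huv := (SimpleGraph.compl_adj Γ _ _).mp D.adj
  by_cases h1 : w ≠ D.u ∧ w ≠ D.v
  · rw [D.act1_other h1.1 h1.2]; simp
  · by_cases h2 : w' ≠ D.u ∧ w' ≠ D.v
    · rw [D.act1_other h2.1 h2.2]; simp
    · exfalso
      have h3 : w = D.u ∨ w = D.v := by tauto
      have h4 : w' = D.u ∨ w' = D.v := by tauto
      rcases h3 with rfl | rfl <;> rcases h4 with rfl | rfl
      · exact h.ne rfl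
      · exact huv.2 h
      · exact huv.2 h.symm
      · exact h.ne rfl)

theorem θ_inj (w : V) (a : H w) : D.θ (inj Γ H w a) = D.act1 w a := lift_inj _ _ _ _ _ _

theorem θ_iso (g : GProd Γ H) : ∀ m n : ℤ, |D.θ g m - D.θ g n| = |m - n| := by
  refine ind_left Γ H (P := fun g => ∀ m n : ℤ, |D.θ g m - D.θ g n| = |m - n|) g ?_ ?_
  · intro m n
    rw [map_one]
    rfl
  · intro w a x hx m n
    rw [map_mul, Equiv.Perm.mul_apply, Equiv.Perm.mul_apply, ← hx m n, D.θ_inj]
    generalize D.θ x m = m'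
    generalize D.θ x n = n'
    by_cases ha : a = 1
    · rw [ha, map_one]
      rfl
    · rw [D.act1_apply ha]
      unfold sg
      split_ifs
      · rw [refl0_apply, refl0_apply, abs_sub_comm]
        congr 1
        ring
      · rw [refl1_apply, refl1_apply, abs_sub_comm]
        congr 1
        ring
      · rfl

include D in
theorem no_square (Λ : Set V) : ¬ HasSquare Γ Λ := by
  rintro ⟨a, b, c, d, ⟨h1, -, -, h4, h5, h6, h7, h8⟩, -⟩
  rcases D.uniq a c (compl_adj h5 h6) with ⟨rfl, rfl⟩ | ⟨rfl, rfl⟩ <;>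
    rcases D.uniq b d (compl_adj h7 h8) with ⟨rfl, rfl⟩ | ⟨rfl, rfl⟩
  · exact h1.ne rfl
  · exact h4.ne rfl
  · exact h4.ne rfl
  · exact h1.ne rfl

theorem nonU_eq {w : V} (hw : w ∈ nonU Γ) : w = D.u ∨ w = D.v := by
  obtain ⟨w', h⟩ := hw
  rcases D.uniq w w' h with ⟨h1, -⟩ | ⟨h1, -⟩
  · exact Or.inl h1
  · exact Or.inr h1

theorem u_mem : D.u ∈ nonU Γ := ⟨D.v, D.adj⟩

theorem v_mem : D.v ∈ nonU Γ := ⟨D.u, D.adj.symm⟩

theorem θ_sub {z : GProd Γ H} (hz : z ∈ sub Γ H (nonU Γ)ᶜ) : D.θ z = 1 := by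
  unfold sub at hz
  induction hz using Subgroup.closure_induction with
  | mem y hy =>
    obtain ⟨w, hw, b, rfl⟩ := Set.mem_iUnion₂.1 hy
    rw [D.θ_inj]
    exact D.act1_other (fun h : w = D.u => hw (h ▸ D.u_mem)) (fun h : w = D.v => hw (h ▸ D.v_mem)) b
  | one => exact map_one _
  | mul y y' _ _ ih ih' => rw [map_mul, ih, ih', mul_one]
  | inv y _ ih => rw [map_inv, ih, inv_one]

variable {D} in
theorem exists_ab [∀ v, Nontrivial (H v)] : ∃ (a : H D.u) (b : H D.v), a ≠ 1 ∧ b ≠ 1 := by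
  obtain ⟨a, ha⟩ := exists_ne (1 : H D.u)
  obtain ⟨b, hb⟩ := exists_ne (1 : H D.v)
  exact ⟨a, b, ha, hb⟩

/-- The translation. -/
noncomputable def T (a : H D.u) (b : H D.v) : GProd Γ H := inj Γ H D.v b * inj Γ H D.u a

theorem θ_T {a : H D.u} {b : H D.v} (ha : a ≠ 1) (hb : b ≠ 1) (n m : ℤ) :
    D.θ (D.T a b ^ n) m = m + n := by
  have h1 : D.θ (D.T a b) = Equiv.addRight (1 : ℤ) := by
    unfold T
    rw [map_mul, D.θ_inj, D.θ_inj, D.act1_apply ha, D.act1_apply hb]
    unfold sg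
    rw [if_pos rfl, if_neg D.adj.ne.symm, if_pos rfl]
    ext x
    change 1 - (-x) = x + 1
    ring
  rw [map_zpow, h1]
  induction n using Int.induction_on with
  | zero => simp
  | succ n ih =>
    rw [zpow_add_one, Equiv.Perm.mul_apply]
    have h2 : ((Equiv.addRight (1 : ℤ)) ^ (n : ℤ)) (m + 1) = (m + 1) + n := by
      clear ih
      induction n with
      | zero => simp
      | succ n ih =>
        push_cast at ih ⊢
        rw [zpow_add_one, Equiv.Perm.mul_apply]
        simp only [Equiv.coe_addRight]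
        have : ((Equiv.addRight (1 : ℤ)) ^ (n : ℤ)) (m + 1 + 1) =
          ((Equiv.addRight (1 : ℤ)) ^ (n : ℤ)) ((m + 1) + 1) := rfl
        have h3 : (Equiv.addRight (1 : ℤ)) (((Equiv.addRight (1 : ℤ)) ^ (n : ℤ)) (m + 1)) =
          ((Equiv.addRight (1 : ℤ)) ^ (n : ℤ)) ((Equiv.addRight (1 : ℤ)) (m + 1)) := by
          rw [← Equiv.Perm.mul_apply, ← Equiv.Perm.mul_apply, ← zpow_one_add, ← zpow_add_one,
            add_comm]
        simp only [Equiv.coe_addRight] at h3
        rw [← h3, ih]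
        ring
    change ((Equiv.addRight (1 : ℤ)) ^ (n : ℤ)) (m + 1) = _
    rw [h2]
    ring
  | pred n ih =>
    have h3 : (Equiv.addRight (1 : ℤ)) (((Equiv.addRight (1 : ℤ)) ^ (-(n : ℤ) - 1)) m) =
        ((Equiv.addRight (1 : ℤ)) ^ (-(n : ℤ))) m := by
      rw [← Equiv.Perm.mul_apply, ← zpow_one_add]
      congr 2
      ring
    rw [ih] at h3
    simp only [Equiv.coe_addRight] at h3
    linarith

theorem T_props {a : H D.u} {b : H D.v} (ha : a ≠ 1) (hb : b ≠ 1) :
    (∀ n : ℤ, inj Γ H D.u a * D.T a b ^ n = D.T a b ^ (-n) * inj Γ H D.u a) ∧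
      inj Γ H D.v b = D.T a b * inj Γ H D.u a ∧ inj Γ H D.u a * inj Γ H D.u a = 1 := by
  have ha2 : inj Γ H D.u a * inj Γ H D.u a = 1 := by rw [← map_mul, card2 D.cu ha ha, map_one]
  have hb2 : inj Γ H D.v b * inj Γ H D.v b = 1 := by rw [← map_mul, card2 D.cv hb hb, map_one]
  have hai : (inj Γ H D.u a)⁻¹ = inj Γ H D.u a := inv_eq_of_mul_eq_one_left ha2
  have hbi : (inj Γ H D.v b)⁻¹ = inj Γ H D.v b := inv_eq_of_mul_eq_one_left hb2
  refine ⟨fun n => ?_, ?_, ha2⟩
  · have h1 : inj Γ H D.u a * D.T a b * (inj Γ H D.u a)⁻¹ = (D.T a b)⁻¹ := by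
      unfold T
      rw [mul_inv_rev, hai, hbi, mul_assoc, mul_assoc, ha2, mul_one]
    have h2 : inj Γ H D.u a * D.T a b ^ n * (inj Γ H D.u a)⁻¹ = D.T a b ^ (-n) := by
      rw [← conj_zpow, h1, inv_zpow, zpow_neg]
    rw [← h2, inv_mul_cancel_right]
  · unfold T
    rw [mul_assoc, ha2, mul_one]

theorem form_nonU {a : H D.u} {b : H D.v} (ha : a ≠ 1) (hb : b ≠ 1) (g : GProd Γ H) :
    ∃ n : ℤ, kap Γ H (nonU Γ) g = D.T a b ^ n ∨ kap Γ H (nonU Γ) g = D.T a b ^ n * inj Γ H D.u a := by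
  obtain ⟨h1, h2, h3⟩ := D.T_props ha hb
  refine ind_left Γ H (P := fun g => ∃ n : ℤ, kap Γ H (nonU Γ) g = D.T a b ^ n ∨
    kap Γ H (nonU Γ) g = D.T a b ^ n * inj Γ H D.u a) g ⟨0, Or.inl (by simp)⟩ ?_
  intro w c x ⟨n, hx⟩
  rw [map_mul]
  by_cases hw : w ∈ nonU Γ
  · rw [kap_mem Γ H hw]
    by_cases hc : c = 1
    · rw [hc, map_one, one_mul]
      exact ⟨n, hx⟩
    · have hstep : ∀ y, (y = D.T a b ^ n ∨ y = D.T a b ^ n * inj Γ H D.u a) →
          ∃ m : ℤ, inj Γ H D.u a * y = D.T a b ^ m ∨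
            inj Γ H D.u a * y = D.T a b ^ m * inj Γ H D.u a := by
        rintro y (rfl | rfl)
        · exact ⟨-n, Or.inr (h1 n)⟩
        · refine ⟨-n, Or.inl ?_⟩
          rw [← mul_assoc, h1, mul_assoc, h3, mul_one]
      rcases D.nonU_eq hw with h4 | h4
      · subst h4
        have : c = a := by
          have e1 := card2 D.cu hc ha
          have e2 := card2 D.cu ha ha
          exact mul_right_cancel (e1.trans e2.symm)
        rw [this]
        exact hstep _ hx
      · subst h4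
        have : c = b := by
          have e1 := card2 D.cv hc hb
          have e2 := card2 D.cv hb hb
          exact mul_right_cancel (e1.trans e2.symm)
        rw [this, h2, mul_assoc]
        obtain ⟨m, hm⟩ := hstep _ hx
        refine ⟨1 + m, ?_⟩
        rcases hm with hm | hm
        · left
          rw [hm, zpow_one_add]
        · right
          rw [hm, zpow_one_add, mul_assoc]
  · rw [kap_not Γ H hw, one_mul]
    exact ⟨n, hx⟩

/-- The finite set of remainders. -/
def Rem (a : H D.u) : Set (GProd Γ H) :=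
  Set.image2 (fun x y => x * y) {1, inj Γ H D.u a} (sub Γ H (nonU Γ)ᶜ : Set (GProd Γ H))

theorem rem_finite [Finite V] [∀ v, Finite (H v)] (a : H D.u) : (D.Rem a).Finite :=
  Set.Finite.image2 _ (Set.toFinite _) finite_univ

theorem form {a : H D.u} {b : H D.v} (ha : a ≠ 1) (hb : b ≠ 1) (g : GProd Γ H) :
    ∃ (n : ℤ), ∃ s ∈ D.Rem a, g = D.T a b ^ n * s := by
  obtain ⟨n, h⟩ := D.form_nonU ha hb g
  have h1 := kap_split (Γ := Γ) (H := H) g
  rcases h with h | h
  · refine ⟨n, 1 * kap Γ H (nonU Γ)ᶜ g, ⟨1, by simp, _, kap_mem_sub _ _, rfl⟩, ?_⟩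
    rw [one_mul, ← h]
    exact h1
  · refine ⟨n, inj Γ H D.u a * kap Γ H (nonU Γ)ᶜ g, ⟨_, by simp, _, kap_mem_sub _ _, rfl⟩, ?_⟩
    rw [← mul_assoc, ← h]
    exact h1

theorem θ_rem {a : H D.u} (ha : a ≠ 1) {s : GProd Γ H} (hs : s ∈ D.Rem a) : D.θ s 0 = 0 := by
  obtain ⟨x, hx, z, hz, rfl⟩ := hs
  simp only
  rw [map_mul, D.θ_sub hz, mul_one]
  rcases hx with rfl | hx
  · rw [map_one]; rfl
  · rw [Set.mem_singleton_iff] at hx
    rw [hx, D.θ_inj, D.act1_apply ha]
    unfold sg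
    rw [if_pos rfl, refl0_apply, neg_zero]

theorem bd_T (a : H D.u) (b : H D.v) (n : ℤ) : Bd (elec Γ H) (2 * n.natAbs) (D.T a b ^ n) := by
  have h1 : Bd (elec Γ H) 2 (D.T a b) := (bd_inj D.v b).mul (bd_inj D.u a)
  have h2 : Bd (elec Γ H) 2 (D.T a b)⁻¹ := by
    unfold T
    rw [mul_inv_rev, ← map_inv, ← map_inv]
    exact (bd_inj D.u a⁻¹).mul (bd_inj D.v b⁻¹)
  have h3 : ∀ (x : GProd Γ H), Bd (elec Γ H) 2 x → ∀ n : ℕ, Bd (elec Γ H) (2 * n) (x ^ n) := by
    intro x hx n
    induction n with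
    | zero => rw [pow_zero]; exact bd_one
    | succ n ih => rw [pow_succ]; exact ih.mul hx
  obtain ⟨k, rfl | rfl⟩ := n.eq_nat_or_neg
  · rw [zpow_natCast, Int.natAbs_natCast]
    exact h3 _ h1 k
  · rw [zpow_neg, zpow_natCast, ← inv_pow, Int.natAbs_neg, Int.natAbs_natCast]
    exact h3 _ h2 k

include D in
theorem quasiLine [Finite V] [∀ v, Finite (H v)] [∀ v, Nontrivial (H v)] :
    QuasiLine (elec Γ H) := by
  obtain ⟨a, b, ha, hb⟩ := exists_ab (D := D)
  obtain ⟨B, hB⟩ := exists_bd_finite (D.rem_finite a)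
  have hconn := connected_elec (Γ := Γ) (H := H)
  have hstep : ∀ x y, (elec Γ H).Adj x y → |(D.θ x 0 : ℤ) - D.θ y 0| ≤ 1 := by
    rintro x y ⟨-, ⟨w, c, hc⟩ | ⟨Λ, hΛ, -⟩⟩
    · have h1 : y = x * inj Γ H w c := by rw [← hc, mul_inv_cancel_left]
      rw [h1, map_mul, Equiv.Perm.mul_apply, D.θ_iso, D.θ_inj]
      by_cases hc1 : c = 1
      · rw [hc1, map_one]
        simp
      · rw [D.act1_apply hc1]
        unfold sg
        split_ifs
        · rw [refl0_apply]; simp
        · rw [refl1_apply]; simp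
        · simp
    · exact absurd hΛ.2.1 (D.no_square Λ)
  have hup : ∀ x y, |(D.θ x 0 : ℤ) - D.θ y 0| ≤ (elec Γ H).dist x y := by
    intro x y
    obtain ⟨p, hp⟩ := hconn.exists_walk_length_eq_dist x y
    rw [← hp]
    clear hp
    induction p with
    | nil => simp
    | cons h p ih =>
      rw [SimpleGraph.Walk.length_cons]
      have h1 := hstep _ _ h
      have h2 := abs_sub_le (D.θ _ 0) (D.θ _ 0) (D.θ _ 0) |>.trans (add_le_add h1 ih)
      push_cast
      linarith
  have hlow : ∀ x y, ((elec Γ H).dist x y : ℤ) ≤ 2 * |(D.θ x 0 : ℤ) - D.θ y 0| + B := by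
    intro x y
    obtain ⟨n, s, hs, h1⟩ := D.form ha hb (x⁻¹ * y)
    have h2 := (D.bd_T a b n).mul (hB s hs)
    rw [← h1] at h2
    have h3 := h2 x
    rw [mul_inv_cancel_left] at h3
    have h4 : y = x * (D.T a b ^ n * s) := by rw [← h1, mul_inv_cancel_left]
    have h5 : |(D.θ x 0 : ℤ) - D.θ y 0| = n.natAbs := by
      rw [h4, map_mul, Equiv.Perm.mul_apply, D.θ_iso, map_mul, Equiv.Perm.mul_apply,
        D.θ_rem ha hs, D.θ_T ha hb]
      simp
    rw [h5]
    exact_mod_cast h3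
  refine ⟨hconn, fun g => ((D.θ g 0 : ℤ) : ℝ), 2, B + 1, by norm_num, by positivity, ?_, ?_⟩
  · intro x y
    have h1 : (|(D.θ x 0 : ℝ) - D.θ y 0|) ≤ (elec Γ H).dist x y := by exact_mod_cast hup x y
    have h2 : ((elec Γ H).dist x y : ℝ) ≤ 2 * |(D.θ x 0 : ℝ) - D.θ y 0| + B := by
      exact_mod_cast hlow x y
    have h3 : (0 : ℝ) ≤ (elec Γ H).dist x y := Nat.cast_nonneg _
    have h4 : (0 : ℝ) ≤ B := Nat.cast_nonneg _
    constructor <;> linarith
  · intro r
    refine ⟨D.T a b ^ ⌊r⌋, ?_⟩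
    simp only
    rw [D.θ_T ha hb, zero_add]
    have h1 := Int.floor_le r
    have h2 := Int.lt_floor_add_one r
    have h4 : (0 : ℝ) ≤ B := Nat.cast_nonneg _
    rw [abs_le]
    constructor <;> linarith

include D in
theorem infinite [∀ v, Nontrivial (H v)] : Infinite (GProd Γ H) := by
  obtain ⟨a, b, ha, hb⟩ := exists_ab (D := D)
  refine Infinite.of_injective (fun n : ℤ => D.T a b ^ n) ?_
  intro m n h
  have h1 := congrArg (fun g => D.θ g 0) h
  simp only at h1
  rw [D.θ_T ha hb, D.θ_T ha hb] at h1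
  linarith

include D in
theorem vc [Finite V] [∀ v, Finite (H v)] [∀ v, Nontrivial (H v)] :
    VirtuallyCyclic (GProd Γ H) := by
  obtain ⟨a, b, ha, hb⟩ := exists_ab (D := D)
  refine ⟨D.T a b, ?_⟩
  have hfin : Finite (GProd Γ H ⧸ Subgroup.zpowers (D.T a b)) := by
    have h1 := (D.rem_finite a).image
      (fun s => (QuotientGroup.mk s⁻¹ : GProd Γ H ⧸ Subgroup.zpowers (D.T a b)))
    refine Set.finite_univ_iff.mp (h1.subset ?_)
    intro q _
    obtain ⟨g, rfl⟩ := QuotientGroup.mk_surjective q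
    obtain ⟨n, s, hs, h2⟩ := D.form ha hb g⁻¹
    refine ⟨s, hs, ?_⟩
    simp only
    rw [QuotientGroup.eq, inv_inv]
    have : s * g = (D.T a b ^ n)⁻¹ := by
      rw [eq_inv_iff_mul_eq_one, ← inv_inv g, h2]
      group
    rw [this]
    exact Subgroup.inv_mem _ (Subgroup.zpow_mem _ (Subgroup.mem_zpowers _) n)
  exact Subgroup.finiteIndex_of_finite_quotient

end LineData

/-! ### The characterisation -/

theorem unique_of_not_rich {v0 w w' : V} (h : ¬ Rich Γ H v0) (h1 : Γᶜ.Adj v0 w)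
    (h2 : Γᶜ.Adj v0 w') : w = w' := by
  by_contra hne
  exact h (Or.inl ⟨w, w', hne, h1, h2⟩)

theorem card_of_not_rich [∀ v, Nontrivial (H v)] {v0 w : V} (h : ¬ Rich Γ H v0)
    (h1 : Γᶜ.Adj v0 w) : Nat.card (H w) = 2 := by
  obtain ⟨a, ha⟩ := exists_ne (1 : H w)
  rw [Nat.card_eq_two_iff]
  refine ⟨1, a, ha.symm, ?_⟩
  ext x
  simp only [Set.mem_insert_iff, Set.mem_singleton_iff, Set.mem_univ, iff_true]
  by_contra hx
  push Not at hx
  exact h (Or.inr ⟨w, h1, x, a, hx.1, ha, hx.2⟩)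

theorem lineData_of [∀ v, Nontrivial (H v)] (hnr : ∀ v, ¬ Rich Γ H v) {u v : V}
    (huv : Γᶜ.Adj u v)
    (hd : ∀ x y, Γᶜ.Adj x y → x ≠ u → x ≠ v → y ≠ u → y ≠ v → False) :
    ∃ D : LineData Γ H, D.u = u ∧ D.v = v := by
  refine ⟨⟨u, v, huv, card_of_not_rich (hnr v) huv.symm, card_of_not_rich (hnr u) huv, ?_⟩,
    rfl, rfl⟩
  intro x y hxy
  by_cases h1 : x = u
  · subst h1
    exact Or.inl ⟨rfl, unique_of_not_rich (hnr x) hxy huv⟩
  · by_cases h2 : x = v
    · subst h2
      exact Or.inr ⟨rfl, unique_of_not_rich (hnr x) hxy huv.symm⟩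
    · exfalso
      refine hd x y hxy h1 h2 ?_ ?_
      · rintro rfl
        exact h2 (unique_of_not_rich (hnr y) hxy.symm huv)
      · rintro rfl
        exact h1 (unique_of_not_rich (hnr y) hxy.symm huv.symm)

theorem lineData_of_quasiLine [Finite V] [∀ v, Finite (H v)] [∀ v, Nontrivial (H v)]
    (h : QuasiLine (elec Γ H)) : Nonempty (LineData Γ H) := by
  obtain ⟨⟨u, v, huv⟩, hconn, -⟩ := unbounded_cases h
  have hnr := not_rich h
  obtain ⟨D, -, -⟩ := lineData_of hnr huv (by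
    intro x y hxy h1 h2 _ _
    obtain ⟨p⟩ := hconn u ⟨v, huv⟩ x ⟨y, hxy⟩
    have key : ∀ a b, Γᶜ.Walk a b → a = u ∨ a = v → b = u ∨ b = v := by
      intro a b p
      induction p with
      | nil => exact id
      | cons h p ih =>
        rintro (rfl | rfl)
        · exact ih (Or.inr (unique_of_not_rich (hnr _) h huv))
        · exact ih (Or.inl (unique_of_not_rich (hnr _) h huv.symm))
    rcases key u x p (Or.inl rfl) with h3 | h3
    · exact h1 h3
    · exact h2 h3)
  exact ⟨D⟩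

theorem lineData_of_vc [Finite V] [∀ v, Finite (H v)] [∀ v, Nontrivial (H v)]
    (hinf : Infinite (GProd Γ H)) (hvc : VirtuallyCyclic (GProd Γ H)) :
    Nonempty (LineData Γ H) := by
  have hnr : ∀ v, ¬ Rich Γ H v := fun v hr => not_vc_of_rich hr hvc
  have hex : ∃ u v, Γᶜ.Adj u v := by
    by_contra hne
    push Not at hne
    have hU : nonU Γ = ∅ := by
      rw [Set.eq_empty_iff_forall_notMem]
      rintro x ⟨y, hy⟩
      exact hne x y hy
    have hfin := finite_univ (Γ := Γ) (H := H)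
    refine hinf.not_finite (Set.finite_univ_iff.mp (hfin.subset ?_))
    intro x _
    have h1 := kap_split (Γ := Γ) (H := H) x
    have h2 : kap Γ H (nonU Γ) x = 1 := by
      rw [hU]
      refine ind_left Γ H (P := fun x => kap Γ H ∅ x = 1) x (map_one _) ?_
      intro v a x hx
      rw [map_mul, hx, kap_not Γ H (Set.notMem_empty v), mul_one]
    rw [h2, one_mul] at h1
    rw [h1]
    exact kap_mem_sub _ _
  obtain ⟨u, v, huv⟩ := hex
  obtain ⟨D, -, -⟩ := lineData_of hnr huv (by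
    intro x y hxy h1 h2 h3 h4
    exact not_vc_of_two huv hxy h1 h2 h3 h4 hvc)
  exact ⟨D⟩

end Pool.Agent.Q103.EL
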